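import Pool.Agent.Q20.EX.Stm2
import Pool.Agent.Q125.AR.Base

/-! # Project EX, job RES: the Artin character of a restriction -/

set_option autoImplicit false
set_option linter.unusedSectionVars false
set_option linter.deprecated false

namespace Pool.Agent.Q275.EX

open NumberField IsDedekindDomain Pool.Agent.Q5.BR Pool.Agent.Q92.AR Pool.Agent.Q92.PA
  Pool.Agent.W401.Cheb Pool.Agent.W353.NF Pool.Agent.Q20.EX Pool.Agent.Q125.AR

section
variable {F E M : Type} [Field F] [NumberField F] [Field E] [NumberField E] [Field M]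
  [NumberField M] [Algebra F E] [Algebra F M] [Algebra E M] [IsScalarTower F E M] [IsGalois F M]

/-- a Frobenius element of `Gal(M/E)` is a power of a Frobenius element of `Gal(M/F)` -/
theorem frob_pow (u : HeightOneSpectrum (𝓞 E)) (hu : Unramified M (u.under (𝓞 F)))
    (g : M ≃ₐ[E] M) (hg : IsFrobenius u g) :
    ∃ h : M ≃ₐ[F] M, IsFrobenius (u.under (𝓞 F)) h ∧ h ^ rdeg F u = rs F E M g := by
  obtain ⟨w, hwm, hwu, hw⟩ := hg
  obtain ⟨σ, Q, hQm, hQv, hQ⟩ := Pool.Agent.W401.Frob.exists_frob (u.under (𝓞 F))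
  have hmap : algebraMap (𝓞 F) (𝓞 M) = (algebraMap (𝓞 E) (𝓞 M)).comp (algebraMap (𝓞 F) (𝓞 E)) :=
    IsScalarTower.algebraMap_eq (𝓞 F) (𝓞 E) (𝓞 M)
  have hw0 : w ≠ ⊥ := by
    rintro rfl
    apply u.ne_bot
    rw [← hwu, ← RingHom.ker_eq_comap_bot]
    exact (RingHom.injective_iff_ker_eq_bot _).1 (FaithfulSMul.algebraMap_injective (𝓞 E) (𝓞 M))
  have hwv : w.comap (algebraMap (𝓞 F) (𝓞 M)) = (u.under (𝓞 F)).asIdeal := by
    rw [hmap, ← Ideal.comap_comap, hwu]
    rfl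
  obtain ⟨ι, hι⟩ := exists_emb' hQm hQv ⟨w, hwm.isPrime, hw0⟩ (HeightOneSpectrum.ext hwv)
  obtain ⟨h, hh⟩ := (emb_bijective ι).2 (act F M σ ι)
  have hh' : act F M σ ι = ι.comp (h : M →ₐ[F] M) := hh.symm
  refine ⟨h, ⟨w, hwm, hwv, fun x => ?_⟩, ?_⟩
  · have hgx : IsIntegral ℤ (h (x : M)) := x.2.map h
    obtain ⟨y, hy⟩ : ∃ y : 𝓞 M, (y : M) = h (x : M) := ⟨⟨h (x : M), hgx⟩, rfl⟩
    refine ⟨y - x ^ Ideal.absNorm (u.under (𝓞 F)).asIdeal, ?_, by rw [← hy]; rfl⟩
    have h3 : oi ι (y - x ^ Ideal.absNorm (u.under (𝓞 F)).asIdeal) ∈ Q := by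
      rw [map_sub, map_pow]
      have h1 : oi ι y = σ • oi ι x := by
        apply RingOfIntegers.ext
        have h2 : ι (h (x : M)) = σ (ι (x : M)) := DFunLike.congr_fun hh (x : M)
        rw [oi_coe, hy]
        exact h2
      rw [h1]
      exact hQ _
    exact (hι _).1 h3
  · have h1 : (ι.comp ((h ^ rdeg F u : M ≃ₐ[F] M) : M →ₐ[F] M)) =
        (ι.comp ((rs F E M g : M ≃ₐ[F] M) : M →ₐ[F] M)) := by
      apply rd_injective hu hQm hQv hQ
      have h2 : act F M (σ ^ rdeg F u) ι = ι.comp ((h ^ rdeg F u : M ≃ₐ[F] M) : M →ₐ[F] M) := by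
        ext x
        exact intertwine_pow hh' (rdeg F u) x
      rw [← h2]
      ext a
      rw [rd_frob hQ, ← absNorm_rdeg (K := F) u]
      obtain ⟨y, hy, hya⟩ := hw a
      have h4 : oi (ι.comp ((rs F E M g : M ≃ₐ[F] M) : M →ₐ[F] M)) a =
          oi ι y + oi ι a ^ Ideal.absNorm u.asIdeal := by
        apply RingOfIntegers.ext
        change ι (g (a : M)) = ι (y : M) + ι (a : M) ^ Ideal.absNorm u.asIdeal
        rw [hya, map_sub, map_pow]
        ring
      have h5 : oi ι y ∈ Q := (hι y).2 hy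
      rw [rd_apply, rd_apply, h4, map_add, map_pow, Ideal.Quotient.eq_zero_iff_mem.2 h5, zero_add]
    ext x
    have h3 := DFunLike.congr_fun h1 x
    exact ι.injective h3

end

/-- JOB RES -/
theorem res : S_RES := by
  intro F E M _ _ _ _ _ _ _ _ _ _ _ ψ N hN hR D hD
  have hGE : IsGalois E M := IsGalois.tower_top_of_isGalois F E M
  classical
  rw [← Finsupp.sum_single D, Finsupp.sum, map_sum, map_sum, map_sum]
  refine Finset.sum_congr rfl fun u hu => ?_
  have hNu : (N : 𝓞 E) ∉ u.asIdeal := fun h => (Finsupp.mem_support_iff.1 hu) (hD u h)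
  have hur : Unramified M (u.under (𝓞 F)) := by
    by_contra h
    exact hNu (mem_under.1 (hR _ h))
  obtain ⟨h, hh1, hh2⟩ := frob_pow (F := F) u hur (frob M u) (frob_spec u)
  rw [art_single, nmD_single, art_single]
  have h1 : (ψ.comp (rs F E M)) (frob M u) = ψ (frob M (u.under (𝓞 F))) ^ rdeg F u := by
    rw [MonoidHom.comp_apply, ← hh2, map_pow, chi_frob hur hh1 (frob_spec _)]
  rw [h1, ofMul_pow, mul_comm, mul_smul, natCast_zsmul]

end Pool.Agent.Q275.EX
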