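import Pool.Agent.Q275.EX.Apx
import Pool.Agent.Q280.AR.Tow
import Pool.Agent.Q149.AR.SD2

/-! # Project EX, job DIH -/

set_option autoImplicit false
set_option linter.unusedSectionVars false
set_option linter.deprecated false

namespace Pool.Agent.Q275.EX

open NumberField IsDedekindDomain Pool.Agent.Q5.BR Pool.Agent.Q92.AR Pool.Agent.Q20.EX
  Pool.Agent.Q125.AR Pool.Agent.TeamU

section
variable {K E : Type} [Field K] [NumberField K] [Field E] [NumberField E] [Algebra K E]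

/-- the conjugate of a unit -/
noncomputable def cj (s : E ≃ₐ[K] E) (x : Eˣ) : Eˣ := Units.map (s : E →* E) x

theorem coe_cj (s : E ≃ₐ[K] E) (x : Eˣ) : (cj s x : E) = s (x : E) := rfl

theorem prin_cj (s : E ≃ₐ[K] E) (x : Eˣ) : prin (cj s x) = sD s (prin x) :=
  Pool.Agent.Q149.AR.prin_sE s (Additive.ofMul x)

theorem val_cj (s : E ≃ₐ[K] E) (w : HeightOneSpectrum (𝓞 E)) (x : E) :
    w.valuation E (s x) = (act s⁻¹ w).valuation E x := by
  conv_lhs => rw [← Pool.Agent.Q149.AR.act_act_inv s w]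
  rw [val_act]

theorem natCast_act {N : ℕ} (s : E ≃ₐ[K] E) (w : HeightOneSpectrum (𝓞 E)) :
    (N : 𝓞 E) ∈ (act s w).asIdeal ↔ (N : 𝓞 E) ∈ w.asIdeal := by
  rw [mem_act, map_natCast]

theorem un_cj {N : ℕ} (s : E ≃ₐ[K] E) {x : Eˣ} (hx : Un N x) : Un N (cj s x) := by
  intro w hw
  rw [coe_cj, val_cj]
  exact hx _ ((natCast_act _ _).2 hw)

theorem pos_cj (s : E ≃ₐ[K] E) {x : Eˣ} (hx : Pos (x : E)) : Pos (cj s x : E) := by
  intro φ
  rw [coe_cj]
  exact hx (φ.comp (s : E →+* E))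

theorem congAt_cj {N : ℕ} (s : E ≃ₐ[K] E) {A B : Set (HeightOneSpectrum (𝓞 E))} {x : Eˣ}
    (hAB : ∀ w ∈ B, act s⁻¹ w ∈ A) (hx : CongAt A N (x : E)) : CongAt B N (cj s x : E) := by
  intro w hw hN
  have h1 := hx _ (hAB w hw) ((natCast_act s⁻¹ w).2 hN)
  have h2 : (cj s x : E) - 1 = s ((x : E) - 1) := by rw [coe_cj, map_sub, map_one]
  rw [h2, val_cj]
  have h3 : w.valuation E (N : E) = (act s⁻¹ w).valuation E (N : E) := by
    rw [← val_cj, map_natCast s N]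
  rw [h3]
  exact h1

end

section
variable {K M : Type} [Field K] [NumberField K] [Field M] [NumberField M] [Algebra K M]

theorem congAt_nu {N : ℕ} (hN : N ≠ 0) {B : Set (HeightOneSpectrum (𝓞 K))} {y : Mˣ}
    (h : ∀ W : HeightOneSpectrum (𝓞 M), W.under (𝓞 K) ∈ B → (N : 𝓞 M) ∈ W.asIdeal →
      W.valuation M ((y : M) - 1) ≤ W.valuation M (N : M)) : CongAt B N (nu K M y : K) := by
  intro v hv hvN
  refine nm_cong_at hN v (fun w hw => h w ?_ ?_)
  · rw [hw]
    exact hv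
  · rw [← mem_under (F := K), hw]
    exact hvN

end

/-- JOB DIH -/
theorem dih : S_DIH := by
  intro hNRM K E F L _ _ _ _ _ _ _ _ _ _ _ _ _ _ _ _ _ s N B S θ α hN hs2 hs hB hS hBN hθ hθB hα
    hαS hθα hαs hspl x hxN hxp _
  have hinv : s⁻¹ = s := inv_eq_of_mul_eq_one_left hs2
  rw [AddMonoidHom.comp_apply]
  obtain ⟨x1, hx1u, hx1p, hx1c, hx2u, hx2p, hx2c⟩ :=
    split_at hN {u : HeightOneSpectrum (𝓞 F) | u.under (𝓞 K) ∈ B} hxN hxp
  have e0 : prin x = prin x1 + prin (x / x1) := by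
    rw [prin_div]
    abel
  -- (1)
  have t2 : θ (nmD K F (prin (x / x1))) = 0 := by
    rw [Pool.Agent.Q106.AR.nm_prin]
    refine hθB _ (un_nu hx2u) (pos_nu hx2p) ?_
    rw [compl_compl]
    exact congAt_nu hN (fun W hW hWN => hx2c W hW hWN)
  -- (2)
  obtain ⟨y, hyp, hnyp, hyc, hyu⟩ := hNRM F L N x1 hN (fun v hv => by
    by_cases h : v.under (𝓞 K) ∈ B
    · exact Or.inr (Or.inl (hspl v h))
    · exact Or.inl (hx1c v h hv))
  have hyU : Un N y := fun w hw => hyu w hw (hx1u _ (mem_under.2 hw))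
  have hr : (x1 / nu F L y) ∈ Ray F N := by
    refine ⟨?_, ?_⟩
    · rw [Units.val_div_eq_div_val]
      exact hyc
    · rw [Units.val_div_eq_div_val]
      exact pos_div hx1p hnyp
  have t3 : θ (nmD K F (prin x1)) = θ (nmD K L (prin y)) := by
    have e1 : prin x1 = prin (x1 / nu F L y) + prin (nu F L y) := by
      rw [prin_div]
      abel
    have e2 : θ (nmD K F (prin (x1 / nu F L y))) = 0 := by
      rw [Pool.Agent.Q106.AR.nm_prin]
      exact hθ _ ((Pool.Agent.Q106.AR.nm K F).2.2.1 N hN _ hr)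
    rw [e1, map_add, map_add, e2, zero_add, ← Pool.Agent.Q106.AR.nm_prin, Pool.Agent.Q280.AR.tow]
  -- (3)
  obtain ⟨y1, h1u, h1p, h1c, h1u', h1p', h1c'⟩ :=
    split_at hN {W : HeightOneSpectrum (𝓞 L) | W.under (𝓞 E) ∈ S} hyU hyp
  obtain ⟨y2, h2u, h2p, h2c, h3u, h3p, h3c⟩ :=
    split_at hN {W : HeightOneSpectrum (𝓞 L) | act s (W.under (𝓞 E)) ∈ S} h1u' h1p'
  have e3 : prin y = prin y1 + prin y2 + prin (y / y1 / y2) := by
    rw [prin_div, prin_div]
    abel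
  have t4 : θ (nmD K L (prin (y / y1 / y2))) = 0 := by
    rw [Pool.Agent.Q106.AR.nm_prin]
    refine hθB _ (un_nu h3u) (pos_nu h3p) ?_
    rw [compl_compl]
    refine congAt_nu hN (fun W hW hWN => ?_)
    have hW' : (W.under (𝓞 E)).under (𝓞 K) ∈ B := by
      rw [Pool.Agent.Q280.AR.under_under K E L W]
      exact hW
    rcases (hB _).1 hW' with h | h
    · have h5 : ¬ act s (W.under (𝓞 E)) ∈ S := hS _ h
      have h6 := h1c' W h hWN
      have h7 := h2c W h5 hWN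
      rw [Units.val_div_eq_div_val]
      exact cong_div (h2u W hWN) h6 h7
    · exact h3c W h hWN
  -- (4)
  have hc1 : CongAt Sᶜ N (nu E L y1 : E) := congAt_nu hN (fun W hW hWN => h1c W hW hWN)
  have t5 : θ (nmD K L (prin y1)) = 0 := by
    have e4 := hθα _ (un_nu h1u) (pos_nu h1p) hc1
    rw [AddMonoidHom.sub_apply, AddMonoidHom.comp_apply, sub_eq_zero] at e4
    rw [← Pool.Agent.Q280.AR.tow K E L, Pool.Agent.Q106.AR.nm_prin, e4,
      ← Pool.Agent.Q106.AR.nm_prin, hαs _ (Pr_of_un h1u), Pool.Agent.Q106.AR.nm_prin, ← prin_cj]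
    refine hαS _ (un_cj s (un_nu h1u)) (pos_cj s (pos_nu h1p)) (congAt_cj s (A := Sᶜ) ?_ hc1)
    intro w hw
    rw [hinv]
    exact hw
  -- (5)
  have hc2 : CongAt {w | act s w ∈ S}ᶜ N (nu E L y2 : E) :=
    congAt_nu hN (fun W hW hWN => h2c W hW hWN)
  have t6 : θ (nmD K L (prin y2)) = 0 := by
    have hc3 : CongAt Sᶜ N (cj s (nu E L y2) : E) := by
      refine congAt_cj s ?_ hc2
      intro w hw h
      rw [Set.mem_ofPred_eq, Pool.Agent.Q149.AR.act_act_inv] at h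
      exact hw h
    have e4 := hθα _ (un_cj s (un_nu h2u)) (pos_cj s (pos_nu h2p)) hc3
    rw [AddMonoidHom.sub_apply, AddMonoidHom.comp_apply, sub_eq_zero, prin_cj,
      Pool.Agent.Q149.AR.nmD_sD] at e4
    rw [← Pool.Agent.Q280.AR.tow K E L, Pool.Agent.Q106.AR.nm_prin, e4,
      ← Pool.Agent.Q106.AR.nm_prin, ← hαs _ (Pr_of_un h2u), Pool.Agent.Q106.AR.nm_prin]
    exact hαS _ (un_nu h2u) (pos_nu h2p) hc2
  rw [e0, map_add, map_add, t2, t3, e3, map_add, map_add, map_add, map_add, t4, t5, t6, add_zero,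
    add_zero, add_zero]

end Pool.Agent.Q275.EX
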