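import Pool.Agent.Q20.EX.Stm
import Pool.Agent.Q125.AR.Base
import Pool.Agent.Q84.AR.Frac
import Pool.Agent.Q106.AR.NmB

/-! # Project EX, job DIH: approximations -/

set_option autoImplicit false
set_option linter.unusedSectionVars false
set_option linter.deprecated false

namespace Pool.Agent.Q275.EX

open NumberField IsDedekindDomain Pool.Agent.Q5.BR Pool.Agent.Q92.AR Pool.Agent.Q20.EX
  Pool.Agent.Q125.AR

section
variable {F E : Type} [Field F] [NumberField F] [Field E] [NumberField E] [Algebra F E]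

/-- the norm of an element congruent to one at all primes above `v` -/
theorem nm_cong_at {N : ℕ} {x : Eˣ} (hN : N ≠ 0) (v : HeightOneSpectrum (𝓞 F))
    (hx : ∀ w : HeightOneSpectrum (𝓞 E), w.under (𝓞 F) = v →
      w.valuation E ((x : E) - 1) ≤ w.valuation E (N : E)) :
    v.valuation F ((nu F E x : F) - 1) ≤ v.valuation F (N : F) := by
  have hNE : (N : E) ≠ 0 := Nat.cast_ne_zero.2 hN
  have hNF : (N : F) ≠ 0 := Nat.cast_ne_zero.2 hN
  obtain ⟨s, hs, z, hz⟩ := Pool.Agent.Q106.AR.exists_den (E := E) v (((x : E) - 1) / N) (by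
    intro w hw
    rw [map_div₀]
    apply div_le_one_of_le₀ (hx w hw) zero_le)
  have h1 : algebraMap F E (s : F) * x = algebraMap F E (s : F) + N * (z : E) := by
    rw [← hz]
    field_simp
    ring
  obtain ⟨u, hu⟩ := Pool.Agent.Q106.AR.norm_cong_int hN s z
  rw [← h1, map_mul, Algebra.norm_algebraMap] at hu
  have h2 : (s : F) ^ Module.finrank F E * ((nu F E x : F) - 1) = N * u := by
    have e1 : (nu F E x : F) = Algebra.norm F (x : E) := rfl
    rw [e1, mul_sub, hu]
    ring
  have h3 : v.valuation F (s : F) = 1 := by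
    have := (HeightOneSpectrum.valuation_eq_one_iff_notMem (K := F) v (r := s)).2 hs
    exact this
  have h4 := congrArg (v.valuation F) h2
  rw [map_mul, map_mul, map_pow, h3, one_pow, one_mul] at h4
  rw [h4]
  exact mul_le_of_le_one_right' (v.valuation_le_one u)

theorem un_of_Pr {N : ℕ} {x : Fˣ} (h : prin x ∈ Pr F N) : Un N x := by
  intro v hv
  rw [valuation_eq_exp, h v hv, neg_zero, WithZero.exp_zero]

theorem Pr_of_un {N : ℕ} {x : Fˣ} (h : Un N x) : prin x ∈ Pr F N := fun v hv =>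
  prin_eq_zero_of_valuation (h v hv)

theorem un_nu {N : ℕ} {x : Eˣ} (h : Un N x) : Un N (nu F E x) := by
  apply un_of_Pr
  rw [← Pool.Agent.Q106.AR.nm_prin]
  exact Pool.Agent.Q106.AR.nm_Pr (Pr_of_un h)

theorem pos_nu {x : Eˣ} (h : Pos (x : E)) : Pos (nu F E x : F) := fun φ =>
  Pool.Agent.Q106.AR.nm_pos φ x (fun χ _ => h χ)

theorem un_div {N : ℕ} {x y : Fˣ} (hx : Un N x) (hy : Un N y) : Un N (x / y) := by
  intro v hv
  rw [Units.val_div_eq_div_val, map_div₀, hx v hv, hy v hv, div_one]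

theorem pos_div {x y : F} (hx : Pos x) (hy : Pos y) : Pos (x / y) := by
  intro φ
  rw [map_div₀]
  exact div_pos (hx φ) (hy φ)

theorem cong_div {v : HeightOneSpectrum (𝓞 F)} {N : ℕ} {x y : F} (hy1 : v.valuation F y = 1)
    (hx : v.valuation F (x - 1) ≤ v.valuation F (N : F))
    (hy : v.valuation F (y - 1) ≤ v.valuation F (N : F)) :
    v.valuation F (x / y - 1) ≤ v.valuation F (N : F) := by
  have hy0 : y ≠ 0 := by
    rintro rfl
    rw [map_zero] at hy1
    exact zero_ne_one hy1
  have h : x / y - 1 = ((x - 1) - (y - 1)) / y := by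
    field_simp
    ring
  rw [h, map_div₀, hy1, div_one]
  exact (Valuation.map_sub _ _ _).trans (max_le hx hy)

end

section
variable {G : Type} [Field G] [NumberField G]

/-- **Approximation** by totally positive elements -/
theorem approx {N : ℕ} (hN : N ≠ 0) (x : HeightOneSpectrum (𝓞 G) → Gˣ)
    (hx : ∀ v : HeightOneSpectrum (𝓞 G), (N : 𝓞 G) ∈ v.asIdeal → v.valuation G (x v : G) = 1) :
    ∃ z : Gˣ, Pos (z : G) ∧ ∀ v : HeightOneSpectrum (𝓞 G), (N : 𝓞 G) ∈ v.asIdeal →
      v.valuation G ((z : G) - x v) ≤ v.valuation G (N : G) := by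
  classical
  have hNG : (N : G) ≠ 0 := Nat.cast_ne_zero.2 hN
  have h1 : ∀ v : HeightOneSpectrum (𝓞 G), (N : 𝓞 G) ∈ v.asIdeal →
      ∃ a : 𝓞 G, v.valuation G ((a : G) - x v) ≤ v.valuation G (N : G) := by
    intro v hv
    obtain ⟨a, ha⟩ := v.exists_valuation_sub_lt_of_integer (K := G) (hx v hv).le
      (Units.mk0 (v.valuation G (N : G)) ((Valuation.ne_zero_iff _).2 hNG))
    exact ⟨a, ha.le⟩
  choose a ha using h1
  let s := (finite_dvd (F := G) hN).toFinset
  have hs : ∀ v : HeightOneSpectrum (𝓞 G), v ∈ s ↔ (N : 𝓞 G) ∈ v.asIdeal := by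
    intro v
    exact Set.Finite.mem_toFinset _
  have h2 : ∀ v : HeightOneSpectrum (𝓞 G), ∃ e : ℕ,
      v.intValuation (N : 𝓞 G) = WithZero.exp (-(e : ℤ)) := by
    intro v
    refine ⟨_, v.intValuation_if_neg ?_⟩
    exact_mod_cast hN
  choose e he using h2
  obtain ⟨y, hy⟩ := IsDedekindDomain.exists_forall_sub_mem_ideal (s := s)
    (fun v : HeightOneSpectrum (𝓞 G) => v.asIdeal) e (fun v _ => v.prime)
    (fun v _ w _ hvw h => hvw (HeightOneSpectrum.ext h)) (fun v => a v.1 ((hs v.1).1 v.2))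
  have h3 : ∀ v : HeightOneSpectrum (𝓞 G), (N : 𝓞 G) ∈ v.asIdeal →
      v.valuation G ((y : G) - x v) ≤ v.valuation G (N : G) := by
    intro v hv
    have h4 := hy v ((hs v).2 hv)
    rw [← v.intValuation_le_pow_iff_mem, ← he, ← v.valuation_of_algebraMap (K := G),
      ← v.valuation_of_algebraMap (K := G)] at h4
    have h4' : v.valuation G ((y : G) - (a v hv : G)) ≤ v.valuation G (N : G) := by
      have e1 : (((N : 𝓞 G) : 𝓞 G) : G) = (N : G) := map_natCast (algebraMap (𝓞 G) G) N
      rw [← e1]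
      exact h4
    have h5 : (y : G) - x v = ((y : G) - (a v hv : G)) + ((a v hv : G) - x v) := by ring
    rw [h5]
    exact (Valuation.map_add _ _ _).trans (max_le h4' (ha v hv))
  -- a nonzero solution
  obtain ⟨z, hz⟩ : ∃ z : Gˣ, ∀ v : HeightOneSpectrum (𝓞 G), (N : 𝓞 G) ∈ v.asIdeal →
      v.valuation G ((z : G) - x v) ≤ v.valuation G (N : G) := by
    by_cases h0 : (y : G) = 0
    · refine ⟨1, fun v hv => ?_⟩
      exfalso
      have h6 := h3 v hv
      rw [h0, zero_sub, Valuation.map_neg, hx v hv] at h6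
      have h7 : v.valuation G (N : G) < 1 := by
        have h := (v.valuation_lt_one_iff_mem (K := G) (N : 𝓞 G)).2 hv
        simpa using h
      exact absurd h6 (not_le.2 h7)
    · exact ⟨Units.mk0 _ h0, h3⟩
  obtain ⟨t, ht, hts⟩ := Pool.Agent.Q84.AR.sgn G N hN (fun φ => 0 < φ (z : G))
  refine ⟨z * t, fun φ => ?_, fun v hv => ?_⟩
  · rw [Units.val_mul, map_mul]
    have hz0 : φ (z : G) ≠ 0 := (map_ne_zero φ).2 z.ne_zero
    have ht0 : φ (t : G) ≠ 0 := (map_ne_zero φ).2 t.ne_zero
    rcases lt_or_gt_of_ne hz0 with h | h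
    · have h8 : ¬ 0 < φ (t : G) := fun h9 => absurd ((hts φ).1 h9) (not_lt.2 h.le)
      exact mul_pos_of_neg_of_neg h (lt_of_le_of_ne (not_lt.1 h8) ht0)
    · exact mul_pos h ((hts φ).2 h)
  · have ht1 := val_eq_one hv (ht v hv)
    have h9 : ((z * t : Gˣ) : G) - x v = ((z : G) - x v) * t + x v * ((t : G) - 1) := by
      rw [Units.val_mul]
      ring
    rw [h9]
    refine (Valuation.map_add _ _ _).trans (max_le ?_ ?_)
    · rw [map_mul, ht1, mul_one]
      exact hz v hv
    · rw [map_mul, hx v hv, one_mul]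
      exact ht v hv

/-- a unit at `N` is the product of one near `1` outside `A` and one near `1` at `A` -/
theorem split_at {N : ℕ} (hN : N ≠ 0) (A : Set (HeightOneSpectrum (𝓞 G))) {x : Gˣ} (hx : Un N x)
    (hxp : Pos (x : G)) :
    ∃ z : Gˣ, Un N z ∧ Pos (z : G) ∧ CongAt Aᶜ N (z : G) ∧ Un N (x / z) ∧ Pos ((x / z : Gˣ) : G) ∧
      CongAt A N ((x / z : Gˣ) : G) := by
  classical
  obtain ⟨z, hz, hzv⟩ := approx hN (fun v => if v ∈ A then x else 1) (by
    intro v hv
    split_ifs
    · exact hx v hv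
    · rw [Units.val_one, map_one])
  have hlt : ∀ v : HeightOneSpectrum (𝓞 G), (N : 𝓞 G) ∈ v.asIdeal → v.valuation G (N : G) < 1 := by
    intro v hv
    have h := (v.valuation_lt_one_iff_mem (K := G) (N : 𝓞 G)).2 hv
    simpa using h
  have hzu : Un N z := by
    intro v hv
    have h1 := lt_of_le_of_lt (hzv v hv) (hlt v hv)
    have h2 : v.valuation G (((if v ∈ A then x else 1 : Gˣ)) : G) = 1 := by
      split_ifs
      · exact hx v hv
      · rw [Units.val_one, map_one]
    rw [← h2] at h1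
    have h3 := Valuation.map_add_eq_of_lt_right (v.valuation G) h1
    rw [sub_add_cancel] at h3
    rw [h3, h2]
  refine ⟨z, hzu, hz, ?_, un_div hx hzu, ?_, ?_⟩
  · intro v hv hvN
    have h1 := hzv v hvN
    rw [if_neg hv, Units.val_one] at h1
    exact h1
  · rw [Units.val_div_eq_div_val]
    exact pos_div hxp hz
  · intro v hv hvN
    have h1 := hzv v hvN
    rw [if_pos hv] at h1
    have h2 : ((x / z : Gˣ) : G) - 1 = -(((z : G) - x) / z) := by
      rw [Units.val_div_eq_div_val]
      have := z.ne_zero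
      field_simp
      ring
    rw [h2, Valuation.map_neg, map_div₀, hzu v hvN, div_one]
    exact h1

end

end Pool.Agent.Q275.EX
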